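import Mathlib
import Pool.Agent.Helper689.CL9

set_option autoImplicit false

namespace Pool.Agent.Results.MP_d7d3dc_an.SqrtLowerBound

universe u

/-- `D_m ≥ (1/100) √(m / log m)`: for every `m ≥ 2` there is an `m`-dimensional real normed space
`X` whose Banach-Mazur distance to every `m`-dimensional real normed space `Y` of numerical index
one is at least `(1/100) √(m / log m)`. -/
theorem result (m : ℕ) (hm : 2 ≤ m) :
    ∃ (X : Type) (_ : NormedAddCommGroup X) (_ : NormedSpace ℝ X), Module.finrank ℝ X = m ∧
      ∀ (Y : Type u) [NormedAddCommGroup Y] [NormedSpace ℝ Y], Module.finrank ℝ Y = m →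
        Pool.Agent.Helper689.CL.numIndex Y = 1 →
          (1 / 100) * Real.sqrt (m / Real.log m) ≤ Pool.Agent.Helper689.CL.bmDist X Y :=
  Pool.Agent.Helper689.CL.main m hm

end Pool.Agent.Results.MP_d7d3dc_an.SqrtLowerBound
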